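import Pool.Agent.Helper346.Bra.StDefs
import Pool.Agent.Helper346.Bra.Fin0

set_option autoImplicit false

namespace Pool.Agent.Results.MP_1932ef_ag.ThreeTorsion

open Pool.Agent.Helper346.Bra

/-- There is a smooth cubic surface over `ℂ(t)` such that the unramified Brauer group over `ℂ` of
its function field has an element of order three. -/
theorem result : ∃ F : MvPolynomial (Fin 4) (RatFunc ℂ), IsSmoothCubic (RatFunc ℂ) F ∧
    ∃ (K : Type) (_ : Field K) (_ : Algebra (affRing (RatFunc ℂ) F) K) (_ : Algebra ℂ K),
      IsFractionRing (affRing (RatFunc ℂ) F) K ∧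
      IsScalarTower ℂ (affRing (RatFunc ℂ) F) K ∧
      HasUnramifiedOrderThree ℂ K :=
  main_result ℂ

end Pool.Agent.Results.MP_1932ef_ag.ThreeTorsion
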